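import Mathlib
import Pool.Agent.H3.EJ.Pat

/-!
# [H35 QT Mul] products of quadratic characters with multiplicities, words with even letters
-/

set_option autoImplicit false

namespace Pool.Agent.H35.QT

open Finset

/-- complete sums over a nonempty set -/
theorem set_sum {p : ℕ} [Fact p.Prime] {R : ℕ} (hp : 64 * (R + 1) ^ 2 ≤ p) (O : Finset (ZMod p))
    (hO : O.card ≤ R) (hne : O.Nonempty) :
    |((∑ s : ZMod p, ∏ y ∈ O, quadraticChar (ZMod p) (s - y) : ℤ) : ℝ)| ≤
      20 * (R + 1) * √(p : ℝ) + R := by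
  classical
  obtain ⟨x0, hx0⟩ : ∃ x0 : ZMod p, x0 ∉ O := by
    by_contra hcon
    push Not at hcon
    have h1 : (univ : Finset (ZMod p)) ⊆ O := fun x _ => hcon x
    have h2 := card_le_card h1
    rw [card_univ, ZMod.card] at h2
    nlinarith
  have hinj : Function.Injective fun y : ZMod p => y - x0 := fun a b h => sub_left_injective h
  have h0 : (0 : ZMod p) ∉ O.image fun y => y - x0 := by
    intro h
    rw [mem_image] at h
    obtain ⟨y, hy, hy0⟩ := h
    rw [sub_eq_zero.1 hy0] at hy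
    exact hx0 hy
  have hmain := Pool.Agent.H3.EJ.char_sum R hp (O.image fun y => y - x0)
    (by rw [card_image_of_injective _ hinj]; exact hO) (hne.image _) h0
  have h1 : (∑ s : ZMod p, ∏ y ∈ O, quadraticChar (ZMod p) (s - y) : ℤ) =
      ∑ s : ZMod p, ∏ x ∈ O.image fun y => y - x0, quadraticChar (ZMod p) (s - x) := by
    rw [← Equiv.sum_comp (Equiv.addRight x0)]
    refine sum_congr rfl fun s _ => ?_
    rw [prod_image fun x _ y _ h => hinj h]
    refine prod_congr rfl fun l _ => ?_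
    congr 1
    simp only [Equiv.coe_addRight]
    ring
  rw [h1]
  exact hmain

/-- complete sums with multiplicities -/
theorem mult_sum {p : ℕ} [Fact p.Prime] {R : ℕ} (hp : 64 * (R + 1) ^ 2 ≤ p) {ι : Type} [Fintype ι] [DecidableEq ι]
    (hι : Fintype.card ι ≤ R) (ρ : ι → ZMod p) (x : ZMod p)
    (hx : Odd (univ.filter fun i => ρ i = x).card) :
    |((∑ s : ZMod p, ∏ i, quadraticChar (ZMod p) (s - ρ i) : ℤ) : ℝ)| ≤ 20 * (R + 1) * √(p : ℝ) + 2 * R := by
  classical
  obtain ⟨I, hI⟩ : ∃ I : Finset (ZMod p), I = univ.image ρ := ⟨_, rfl⟩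
  obtain ⟨O, hO⟩ : ∃ O : Finset (ZMod p), O = I.filter fun y => Odd (univ.filter fun i => ρ i = y).card :=
    ⟨_, rfl⟩
  have hIc : I.card ≤ R := by
    rw [hI]
    exact card_image_le.trans (by rw [card_univ]; exact hι)
  have hOc : O.card ≤ R := (card_le_card (by rw [hO]; exact filter_subset _ _)).trans hIc
  have hne : O.Nonempty := by
    refine ⟨x, ?_⟩
    rw [hO, mem_filter, hI, mem_image]
    refine ⟨?_, hx⟩
    obtain ⟨i, hi⟩ := card_pos.1 hx.pos
    exact ⟨i, mem_univ _, (mem_filter.1 hi).2⟩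
  have h1 := set_sum hp O hOc hne
  have hle : ∀ s : ZMod p, |∏ y ∈ O, quadraticChar (ZMod p) (s - y)| ≤ 1 := by
    intro s
    rw [abs_prod]
    refine prod_le_one (fun _ _ => abs_nonneg _) fun y _ => ?_
    rcases eq_or_ne (s - y) 0 with h | h
    · rw [h]; simp
    · rcases quadraticChar_dichotomy h with h | h <;> rw [h] <;> simp
  have h2 : ∀ s ∉ I, ∏ i, quadraticChar (ZMod p) (s - ρ i) = ∏ y ∈ O, quadraticChar (ZMod p) (s - y) := by
    intro s hs
    have e1 := Finset.prod_comp (s := (univ : Finset ι)) (fun y => quadraticChar (ZMod p) (s - y)) ρ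
    rw [e1, ← hI, hO, prod_filter]
    refine prod_congr rfl fun y hy => ?_
    have hsy : s - y ≠ 0 := fun h => hs (by rw [sub_eq_zero.1 h]; exact hy)
    split_ifs with hodd
    · obtain ⟨m, hm⟩ := hodd
      rw [hm, pow_succ, pow_mul, quadraticChar_sq_one hsy, one_pow, one_mul]
    · rw [Nat.not_odd_iff_even] at hodd
      obtain ⟨m, hm⟩ := hodd
      rw [hm, ← two_mul, pow_mul, quadraticChar_sq_one hsy, one_pow]
  have h3 : ∀ s ∈ I, ∏ i, quadraticChar (ZMod p) (s - ρ i) = 0 := by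
    intro s hs
    rw [hI, mem_image] at hs
    obtain ⟨i, _, hi⟩ := hs
    refine prod_eq_zero (mem_univ i) ?_
    rw [hi, sub_self, quadraticChar_zero]
  have h4 : (∑ s : ZMod p, ∏ i, quadraticChar (ZMod p) (s - ρ i) : ℤ) =
      (∑ s : ZMod p, ∏ y ∈ O, quadraticChar (ZMod p) (s - y)) -
        ∑ s ∈ I, ∏ y ∈ O, quadraticChar (ZMod p) (s - y) := by
    have e1 := sum_add_sum_compl I fun s => ∏ i, quadraticChar (ZMod p) (s - ρ i)
    have e2 := sum_add_sum_compl I fun s => ∏ y ∈ O, quadraticChar (ZMod p) (s - y)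
    have e3 : ∑ s ∈ I, ∏ i, quadraticChar (ZMod p) (s - ρ i) = 0 := sum_eq_zero h3
    have e4 : ∑ s ∈ Iᶜ, ∏ i, quadraticChar (ZMod p) (s - ρ i) =
        ∑ s ∈ Iᶜ, ∏ y ∈ O, quadraticChar (ZMod p) (s - y) :=
      sum_congr rfl fun s hs => h2 s (mem_compl.1 hs)
    linarith
  have h5 : |((∑ s ∈ I, ∏ y ∈ O, quadraticChar (ZMod p) (s - y) : ℤ) : ℝ)| ≤ R := by
    have e1 : |∑ s ∈ I, ∏ y ∈ O, quadraticChar (ZMod p) (s - y)| ≤ I.card := by
      refine (abs_sum_le_sum_abs _ _).trans ((sum_le_sum fun s _ => hle s).trans ?_)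
      simp
    have e2 : |∑ s ∈ I, ∏ y ∈ O, quadraticChar (ZMod p) (s - y)| ≤ (R : ℤ) :=
      e1.trans (by exact_mod_cast hIc)
    exact_mod_cast e2
  rw [h4, Int.cast_sub]
  refine (abs_sub _ _).trans ?_
  linarith

/-- words of length `2 k` in which every letter occurs an even number of times -/
theorem words (k M : ℕ) (hk : 0 < k) :
    ((univ : Finset (Fin (2 * k) → Fin M)).filter fun ν => ∀ n, Even (univ.filter fun i => ν i = n).card).card ≤
      k ^ (2 * k) * M ^ k := by
  classical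
  have h1 : ((univ : Finset (Fin (2 * k) → Fin M)).filter
      fun ν => ∀ n, Even (univ.filter fun i => ν i = n).card) ⊆
      (univ : Finset ((Fin k → Fin M) × (Fin (2 * k) → Fin k))).image fun q => q.1 ∘ q.2 := by
    intro ν hν
    rw [mem_filter] at hν
    have hev := hν.2
    obtain ⟨I, hI⟩ : ∃ I : Finset (Fin M), I = univ.image ν := ⟨_, rfl⟩
    have hmem : ∀ i, ν i ∈ I := fun i => by rw [hI]; exact mem_image_of_mem _ (mem_univ _)
    have hIk : I.card ≤ k := by
      have e1 : (univ : Finset (Fin (2 * k))).card = ∑ n ∈ I, (univ.filter fun i => ν i = n).card :=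
        card_eq_sum_card_fiberwise fun i _ => hmem i
      have e2 : ∑ n ∈ I, 2 ≤ ∑ n ∈ I, (univ.filter fun i => ν i = n).card := by
        refine sum_le_sum fun n hn => ?_
        rw [hI, mem_image] at hn
        obtain ⟨i, _, hi⟩ := hn
        have e3 : 0 < (univ.filter fun i => ν i = n).card :=
          card_pos.2 ⟨i, mem_filter.2 ⟨mem_univ _, hi⟩⟩
        obtain ⟨m, hm⟩ := hev n
        omega
      rw [sum_const, smul_eq_mul, ← e1, card_univ, Fintype.card_fin] at e2
      omega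
    have hi0 : 0 < 2 * k := by omega
    obtain ⟨e⟩ : Nonempty (I ≃ Fin I.card) := ⟨I.equivFin⟩
    rw [mem_image]
    refine ⟨(fun j => if h : (j : ℕ) < I.card then ((e.symm ⟨j, h⟩ : I) : Fin M) else ν ⟨0, hi0⟩,
      fun i => Fin.castLE hIk (e ⟨ν i, hmem i⟩)), mem_univ _, ?_⟩
    funext i
    simp
  refine (card_le_card h1).trans (card_image_le.trans ?_)
  rw [card_univ, Fintype.card_prod]
  simp only [Fintype.card_fun, Fintype.card_fin]
  rw [mul_comm]

end Pool.Agent.H35.QT
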